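import Mathlib
import Pool.Agent.K3h76.SB.StmA
import Pool.Agent.K3h96.SB.Peel

set_option autoImplicit false

/-!
# Bricks IDES and IDEE of helper76 (MP_27a3bb_gt): number theory and peeling
-/

namespace Pool.Agent.K3h41.SB

open Finset Pool.Agent.K3h76.SB Pool.Agent.K3h96.SB

/-- Fractions in lowest terms. -/
theorem frac_eq {p q p' q' : ℕ} (h : p.Coprime q) (h' : p'.Coprime q') (hq : 0 < q)
    (he : p * q' = p' * q) : p = p' ∧ q = q' := by
  have h1 : q ∣ q' := by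
    have : q ∣ p * q' := he ▸ Dvd.intro_left _ rfl
    exact h.symm.dvd_of_dvd_mul_left this
  have h2 : q' ∣ q := by
    have : q' ∣ p' * q := he ▸ Dvd.intro_left _ rfl
    exact h'.symm.dvd_of_dvd_mul_left this
  have h3 : q = q' := Nat.dvd_antisymm h1 h2
  subst h3
  exact ⟨Nat.eq_of_mul_eq_mul_right hq he, rfl⟩

theorem cop_add {a b : ℕ} (h : a.Coprime b) : (a + b).Coprime (a * b) := by
  apply Nat.Coprime.mul_right
  · rw [Nat.coprime_self_add_left]; exact h.symm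
  · rw [Nat.coprime_add_self_left]; exact h

theorem cop_sub {a k : ℕ} (h : a.Coprime (a + k)) : k.Coprime (a * (a + k)) := by
  have h1 : a.Coprime k := by
    rwa [Nat.coprime_self_add_right] at h
  apply Nat.Coprime.mul_right
  · exact h1.symm
  · rw [Nat.coprime_add_self_right]; exact h1.symm

theorem real_frac {p q p' q' : ℕ} (hq : 0 < q) (hq' : 0 < q')
    (h : (p : ℝ) / q = p' / q') : p * q' = p' * q := by
  have h1 : (q : ℝ) ≠ 0 := by positivity
  have h2 : (q' : ℝ) ≠ 0 := by positivity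
  rw [div_eq_div_iff h1 h2] at h
  exact_mod_cast h

theorem u_eq {a b : ℕ} (ha : 0 < a) (hb : 0 < b) :
    (1 : ℝ) / a + 1 / b = ((a + b : ℕ) : ℝ) / ((a * b : ℕ) : ℝ) := by
  have h1 : (a : ℝ) ≠ 0 := by positivity
  have h2 : (b : ℝ) ≠ 0 := by positivity
  push_cast
  field_simp
  ring

theorem w_eq {a k : ℕ} (ha : 0 < a) :
    (1 : ℝ) / a - 1 / ((a + k : ℕ) : ℝ) = (k : ℝ) / ((a * (a + k) : ℕ) : ℝ) := by
  have h1 : (a : ℝ) ≠ 0 := by positivity
  have h2 : ((a : ℝ) + k) ≠ 0 := by positivity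
  push_cast
  field_simp
  ring

/-- `u` determines the pair. -/
theorem u_inj {a b a' b' : ℕ} (ha : 0 < a) (hab : a < b) (hc : a.Coprime b) (ha' : 0 < a')
    (hab' : a' < b') (hc' : a'.Coprime b') (h : (1 : ℝ) / a + 1 / b = 1 / a' + 1 / b') :
    a = a' ∧ b = b' := by
  have hb : 0 < b := ha.trans hab
  have hb' : 0 < b' := ha'.trans hab'
  rw [u_eq ha hb, u_eq ha' hb'] at h
  obtain ⟨h1, h2⟩ := frac_eq (cop_add hc) (cop_add hc') (Nat.mul_pos ha hb)
    (real_frac (Nat.mul_pos ha hb) (Nat.mul_pos ha' hb') h)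
  have h3 : ((a : ℤ) - a') * (a - b') = 0 := by
    have e1 : (a : ℤ) + b = a' + b' := by exact_mod_cast h1
    have e2 : (a : ℤ) * b = a' * b' := by exact_mod_cast h2
    have e3 : (b : ℤ) = a' + b' - a := by linarith
    rw [e3] at e2
    linarith
  rcases mul_eq_zero.1 h3 with h4 | h4
  · have : a = a' := by exact_mod_cast sub_eq_zero.1 h4
    exact ⟨this, by omega⟩
  · have : a = b' := by exact_mod_cast sub_eq_zero.1 h4
    omega

/-- `w` and `u` can only agree if the products agree. -/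
theorem wu_prod {a b c d : ℕ} (ha : 0 < a) (hab : a < b) (hc : a.Coprime b) (hc0 : 0 < c)
    (hcd : c < d) (hc' : c.Coprime d) (h : (1 : ℝ) / a - 1 / b = 1 / c + 1 / d) :
    a * b = c * d := by
  obtain ⟨k, rfl⟩ := Nat.exists_eq_add_of_le hab.le
  rw [w_eq ha, u_eq hc0 (hc0.trans hcd)] at h
  exact (frac_eq (cop_sub hc) (cop_add hc') (Nat.mul_pos ha (ha.trans hab))
    (real_frac (Nat.mul_pos ha (ha.trans hab)) (Nat.mul_pos hc0 (hc0.trans hcd)) h)).2

/-- `w` determines the pair. -/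
theorem w_inj {a b a' b' : ℕ} (ha : 0 < a) (hab : a < b) (hc : a.Coprime b) (ha' : 0 < a')
    (hab' : a' < b') (hc' : a'.Coprime b') (h : (1 : ℝ) / a - 1 / b = 1 / a' - 1 / b') :
    a = a' ∧ b = b' := by
  obtain ⟨k, rfl⟩ := Nat.exists_eq_add_of_le hab.le
  obtain ⟨k', rfl⟩ := Nat.exists_eq_add_of_le hab'.le
  rw [w_eq ha, w_eq ha'] at h
  obtain ⟨h1, h2⟩ := frac_eq (cop_sub hc) (cop_sub hc') (Nat.mul_pos ha (ha.trans hab))
    (real_frac (Nat.mul_pos ha (ha.trans hab)) (Nat.mul_pos ha' (ha'.trans hab')) h)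
  subst h1
  have h3 : a = a' := by
    rcases lt_trichotomy a a' with h4 | h4 | h4
    · nlinarith
    · exact h4
    · nlinarith
  exact ⟨h3, by rw [h3]⟩

theorem parity {a b n : ℕ} (hc : a.Coprime b) (hn : a * b = n + a + b) : ¬ 2 ∣ n := by
  intro h2
  have h3 : Even (a * b) ↔ Even (n + a + b) := by rw [hn]
  have h4 : Even n := even_iff_two_dvd.2 h2
  rw [Nat.even_mul, Nat.even_add, Nat.even_add] at h3
  have h5 : ¬ (Even a ∧ Even b) := by
    rintro ⟨h6, h7⟩
    have := Nat.dvd_gcd (even_iff_two_dvd.1 h6) (even_iff_two_dvd.1 h7)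
    rw [hc.gcd_eq_one] at this
    omega
  tauto

theorem cop_n {a b n m : ℕ} (hc : a.Coprime b) (hn : a * b = n + a + b)
    (hm : m = n + 2 * a) : n.Coprime m := by
  refine Nat.coprime_of_dvd fun p hp h1 h2 => ?_
  have h3 : p ∣ 2 * a := by
    rw [hm] at h2
    exact (Nat.dvd_add_right h1).1 h2
  rcases (hp.dvd_mul).1 h3 with h4 | h4
  · have : p = 2 := (Nat.prime_dvd_prime_iff_eq hp Nat.prime_two).1 h4
    subst this
    exact parity hc hn h1
  · have h5 : p ∣ n + a + b := hn ▸ h4.mul_right b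
    have h6 : p ∣ b := (Nat.dvd_add_right ((Nat.dvd_add_right h1).2 h4)).1 h5
    have := Nat.dvd_gcd h4 h6
    rw [hc.gcd_eq_one] at this
    exact hp.one_lt.ne' (Nat.dvd_one.1 this)

/-- The ratio `(1 - u) / (1 - w)` determines the pair. -/
theorem ratio_inj {a b a' b' : ℕ} (ha : 2 ≤ a) (hab : a < b) (hc : a.Coprime b) (ha' : 2 ≤ a')
    (hab' : a' < b') (hc' : a'.Coprime b')
    (h : (1 - ((1 : ℝ) / a + 1 / b)) * (1 - ((1 : ℝ) / a' - 1 / b')) =
      (1 - ((1 : ℝ) / a' + 1 / b')) * (1 - ((1 : ℝ) / a - 1 / b))) :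
    a = a' ∧ b = b' := by
  have key : ∀ a b : ℕ, 2 ≤ a → a < b → ∃ n m : ℕ, a * b = n + a + b ∧ m = n + 2 * a ∧
      (n : ℝ) = (a * b) * (1 - ((1 : ℝ) / a + 1 / b)) ∧
      (m : ℝ) = (a * b) * (1 - ((1 : ℝ) / a - 1 / b)) := by
    intro a b ha hab
    have h1 : a + b ≤ a * b := by nlinarith
    obtain ⟨n, hn⟩ := Nat.exists_eq_add_of_le h1
    have hn' : (a : ℝ) * b = a + b + n := by exact_mod_cast hn
    have ha0 : (a : ℝ) ≠ 0 := by positivity
    have hb0 : (b : ℝ) ≠ 0 := by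
      have : 0 < b := by omega
      positivity
    refine ⟨n, n + 2 * a, by omega, rfl, ?_, ?_⟩
    · field_simp
      linarith
    · push_cast
      field_simp
      linarith
  obtain ⟨n, m, hn, hm, hnr, hmr⟩ := key a b ha hab
  obtain ⟨n', m', hn', hm', hnr', hmr'⟩ := key a' b' ha' hab'
  have hmul : n * m' = n' * m := by
    have : (n : ℝ) * m' = n' * m := by
      rw [hnr, hmr, hnr', hmr']
      linear_combination ((a : ℝ) * b) * (a' * b') * h
    exact_mod_cast this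
  have hm0 : 0 < m := by omega
  obtain ⟨h1, h2⟩ := frac_eq (cop_n hc hn hm) (cop_n hc' hn' hm') hm0 hmul
  have h3 : a = a' := by omega
  subst h3
  subst h1
  have h4 : (a - 1) * b = (a - 1) * b' := by
    have e1 : (a - 1) * b = n + a := by
      rw [Nat.sub_mul, one_mul]; omega
    have e2 : (a - 1) * b' = n + a := by
      rw [Nat.sub_mul, one_mul]; omega
    rw [e1, e2]
  exact ⟨rfl, Nat.eq_of_mul_eq_mul_left (by omega) h4⟩

/-- bounds for `u` and `w` -/
theorem bounds {a b : ℕ} (ha : 2 ≤ a) (hab : a < b) :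
    0 < (1 : ℝ) / a - 1 / b ∧ (1 : ℝ) / a - 1 / b < 1 / a + 1 / b ∧ (1 : ℝ) / a + 1 / b < 1 := by
  have ha0 : (2 : ℝ) ≤ a := by exact_mod_cast ha
  have hb0 : (a : ℝ) + 1 ≤ b := by exact_mod_cast hab
  have h1 : (1 : ℝ) / b < 1 / a := one_div_lt_one_div_of_lt (by linarith) (by linarith)
  have h2 : (0 : ℝ) < 1 / b := by
    apply one_div_pos.2; linarith
  have h3 : (1 : ℝ) / a ≤ 1 / 2 := one_div_le_one_div_of_le (by norm_num) ha0
  exact ⟨by linarith, by linarith, by linarith⟩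

theorem lead2_eq (a b : ℕ) (ρ v s : ℝ) : lead2 a b ρ v s =
    -(1 / 2) * Real.sin (Real.pi * ρ * (1 - (1 / a + 1 / b))) *
      Real.exp (-((Real.pi * √v) * (1 - ((1 : ℝ) / a + 1 / b)) * s)) +
    (1 / 2) * Real.sin (Real.pi * ρ * (1 - (1 / a - 1 / b))) *
      Real.exp (-((Real.pi * √v) * (1 - ((1 : ℝ) / a - 1 / b)) * s)) := by
  unfold lead2
  have e1 : (1 : ℝ) - 1 / a - 1 / b = 1 - (1 / a + 1 / b) := by ring
  rw [e1]
  ring

theorem sin_pos' {ρ t : ℝ} (hρ : 0 < ρ) (hρ1 : ρ < 1) (ht : 0 < t) (ht1 : t < 1) :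
    0 < Real.sin (Real.pi * ρ * (1 - t)) := by
  apply Real.sin_pos_of_pos_of_lt_pi
  · have : 0 < 1 - t := by linarith
    have := Real.pi_pos
    positivity
  · have h1 : ρ * (1 - t) < 1 := by nlinarith
    nlinarith [Real.pi_pos]

end Pool.Agent.K3h41.SB
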