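import Mathlib
import Pool.Agent.K3h76.SB.StmA
import Pool.Agent.K3h96.SB.Peel
import Pool.Agent.K3h41.SB.NT

set_option autoImplicit false

/-!
# Bricks IDES and IDEE of helper76 (MP_27a3bb_gt)
-/

namespace Pool.Agent.K3h41.SB

open Finset Pool.Agent.K3h76.SB Pool.Agent.K3h96.SB

/-- Peeling for exponents `x (1 - t)`. -/
theorem peelT {ι : Type*} [Fintype ι] (t c : ι → ℝ) (x C : ℝ) (hx : 0 < x)
    (h : ∀ s : ℝ, 0 ≤ s → |∑ i, c i * Real.exp (-(x * (1 - t i) * s))| ≤
      C * Real.exp (-(x * s))) (y : ℝ) (hy : 0 < y) :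
    (∑ i, if t i = y then c i else 0) = 0 := by
  have h1 := peel (fun i => x * (1 - t i)) c x C h (x * (1 - y)) (by nlinarith)
  refine Eq.trans ?_ h1
  refine Finset.sum_congr rfl fun i _ => ?_
  have : (x * (1 - t i) = x * (1 - y)) ↔ t i = y := by
    rw [mul_right_inj' hx.ne', sub_right_inj]
  simp only [this]

theorem peelT8 (t1 t2 t3 t4 t5 t6 t7 t8 c1 c2 c3 c4 c5 c6 c7 c8 x C : ℝ) (hx : 0 < x)
    (h : ∀ s : ℝ, 0 ≤ s → |c1 * Real.exp (-(x * (1 - t1) * s)) +
      c2 * Real.exp (-(x * (1 - t2) * s)) + c3 * Real.exp (-(x * (1 - t3) * s)) +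
      c4 * Real.exp (-(x * (1 - t4) * s)) + c5 * Real.exp (-(x * (1 - t5) * s)) +
      c6 * Real.exp (-(x * (1 - t6) * s)) + c7 * Real.exp (-(x * (1 - t7) * s)) +
      c8 * Real.exp (-(x * (1 - t8) * s))| ≤ C * Real.exp (-(x * s))) (y : ℝ) (hy : 0 < y) :
    (if t1 = y then c1 else 0) + (if t2 = y then c2 else 0) + (if t3 = y then c3 else 0) +
      (if t4 = y then c4 else 0) + (if t5 = y then c5 else 0) + (if t6 = y then c6 else 0) +
      (if t7 = y then c7 else 0) + (if t8 = y then c8 else 0) = 0 := by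
  have h1 := peelT (ι := Fin 8) ![t1, t2, t3, t4, t5, t6, t7, t8]
    ![c1, c2, c3, c4, c5, c6, c7, c8] x C hx (by
      intro s hs
      have := h s hs
      rw [Fin.sum_univ_eight]
      exact this) y hy
  rw [Fin.sum_univ_eight] at h1
  exact h1

theorem peelT4 (t1 t2 t3 t4 c1 c2 c3 c4 x C : ℝ) (hx : 0 < x)
    (h : ∀ s : ℝ, 0 ≤ s → |c1 * Real.exp (-(x * (1 - t1) * s)) +
      c2 * Real.exp (-(x * (1 - t2) * s)) + c3 * Real.exp (-(x * (1 - t3) * s)) +
      c4 * Real.exp (-(x * (1 - t4) * s))| ≤ C * Real.exp (-(x * s))) (y : ℝ) (hy : 0 < y) :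
    (if t1 = y then c1 else 0) + (if t2 = y then c2 else 0) + (if t3 = y then c3 else 0) +
      (if t4 = y then c4 else 0) = 0 := by
  have h1 := peelT (ι := Fin 4) ![t1, t2, t3, t4] ![c1, c2, c3, c4] x C hx (by
      intro s hs
      have := h s hs
      rw [Fin.sum_univ_four]
      exact this) y hy
  rw [Fin.sum_univ_four] at h1
  exact h1

theorem peel6 (t1 t2 t3 t4 t5 t6 c1 c2 c3 c4 c5 c6 E C : ℝ)
    (h : ∀ s : ℝ, 0 ≤ s → |c1 * Real.exp (-(t1 * s)) +
      c2 * Real.exp (-(t2 * s)) + c3 * Real.exp (-(t3 * s)) +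
      c4 * Real.exp (-(t4 * s)) + c5 * Real.exp (-(t5 * s)) +
      c6 * Real.exp (-(t6 * s))| ≤ C * Real.exp (-(E * s))) (y : ℝ) (hy : y < E) :
    (if t1 = y then c1 else 0) + (if t2 = y then c2 else 0) + (if t3 = y then c3 else 0) +
      (if t4 = y then c4 else 0) + (if t5 = y then c5 else 0) + (if t6 = y then c6 else 0) = 0 := by
  have h1 := peel (ι := Fin 6) ![t1, t2, t3, t4, t5, t6]
    ![c1, c2, c3, c4, c5, c6] E C (by
      intro s hs
      have := h s hs
      rw [Fin.sum_univ_six]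
      exact this) y hy
  rw [Fin.sum_univ_six] at h1
  exact h1

theorem core8 (x C u1 w1 u2 w2 u3 w3 u4 w4 A1 B1 A2 B2 A3 B3 A4 B4 : ℝ) (hx : 0 < x)
    (h : ∀ s : ℝ, 0 ≤ s → |A1 * Real.exp (-(x * (1 - u1) * s)) +
      B1 * Real.exp (-(x * (1 - w1) * s)) + A2 * Real.exp (-(x * (1 - u2) * s)) +
      B2 * Real.exp (-(x * (1 - w2) * s)) + A3 * Real.exp (-(x * (1 - u3) * s)) +
      B3 * Real.exp (-(x * (1 - w3) * s)) + A4 * Real.exp (-(x * (1 - u4) * s)) +
      B4 * Real.exp (-(x * (1 - w4) * s))| ≤ C * Real.exp (-(x * s)))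
    (p1 : 0 < u1) (p2 : w1 < u1) (p3 : w2 < u2) (p4 : u2 < u1) (p5 : 0 < u3) (p6 : w3 < u3)
    (p7 : w4 < u4) (p8 : u4 < u3) (hA1 : A1 ≠ 0) (hA3 : A3 ≠ 0) : u1 = u3 ∧ A1 + A3 = 0 := by
  have key := peelT8 u1 w1 u2 w2 u3 w3 u4 w4 A1 B1 A2 B2 A3 B3 A4 B4 x C hx h
  have step1 : u1 = u3 := by
    rcases lt_trichotomy u1 u3 with h | h | h
    · have h1 := key u3 p5
      rw [if_neg (by linarith : ¬ u1 = u3), if_neg (by linarith : ¬ w1 = u3),
        if_neg (by linarith : ¬ u2 = u3), if_neg (by linarith : ¬ w2 = u3), if_pos rfl,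
        if_neg (by linarith : ¬ w3 = u3), if_neg (by linarith : ¬ u4 = u3),
        if_neg (by linarith : ¬ w4 = u3)] at h1
      exact absurd (by linarith) hA3
    · exact h
    · have h1 := key u1 p1
      rw [if_pos rfl, if_neg (by linarith : ¬ w1 = u1), if_neg (by linarith : ¬ u2 = u1),
        if_neg (by linarith : ¬ w2 = u1), if_neg (by linarith : ¬ u3 = u1),
        if_neg (by linarith : ¬ w3 = u1), if_neg (by linarith : ¬ u4 = u1),
        if_neg (by linarith : ¬ w4 = u1)] at h1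
      exact absurd (by linarith) hA1
  refine ⟨step1, ?_⟩
  have h1 := key u1 p1
  rw [if_pos rfl, if_neg (by linarith : ¬ w1 = u1), if_neg (by linarith : ¬ u2 = u1),
    if_neg (by linarith : ¬ w2 = u1), if_pos step1.symm,
    if_neg (by linarith : ¬ w3 = u1), if_neg (by linarith : ¬ u4 = u1),
    if_neg (by linarith : ¬ w4 = u1)] at h1
  linarith

theorem core4 (x C u1 w1 u3 w3 A1 B1 A3 B3 : ℝ) (hx : 0 < x)
    (h : ∀ s : ℝ, 0 ≤ s → |A1 * Real.exp (-(x * (1 - u1) * s)) +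
      B1 * Real.exp (-(x * (1 - w1) * s)) + A3 * Real.exp (-(x * (1 - u3) * s)) +
      B3 * Real.exp (-(x * (1 - w3) * s))| ≤ C * Real.exp (-(x * s)))
    (p1 : 0 < u1) (p2 : w1 < u1) (p5 : 0 < u3) (p6 : w3 < u3)
    (hA1 : A1 ≠ 0) (hA3 : A3 ≠ 0) : u1 = u3 := by
  have key := peelT4 u1 w1 u3 w3 A1 B1 A3 B3 x C hx h
  rcases lt_trichotomy u1 u3 with h | h | h
  · have h1 := key u3 p5
    rw [if_neg (by linarith : ¬ u1 = u3), if_neg (by linarith : ¬ w1 = u3), if_pos rfl,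
      if_neg (by linarith : ¬ w3 = u3)] at h1
    exact absurd (by linarith) hA3
  · exact h
  · have h1 := key u1 p1
    rw [if_pos rfl, if_neg (by linarith : ¬ w1 = u1), if_neg (by linarith : ¬ u3 = u1),
      if_neg (by linarith : ¬ w3 = u1)] at h1
    exact absurd (by linarith) hA1

/-- Brick IDEE (the hypothesis `S_LEAD` is not used). -/
theorem idee : S_IDEE' := by
  intro a b c d a' b' c' d' ρ v W W₁ W' W₁' C ha hab hcop hc hcd hcop1 hlt ha' hab' hcop'
    hc' hcd' hcop1' hlt' hρ hρ1 hv hW hW₁ hW' hW₁' H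
  have hx : 0 < Real.pi * √v := mul_pos Real.pi_pos (Real.sqrt_pos.2 hv)
  obtain ⟨p1, p2, p3⟩ := bounds ha hab
  obtain ⟨q1, q2, q3⟩ := bounds hc hcd
  obtain ⟨r1, r2, r3⟩ := bounds ha' hab'
  obtain ⟨s1, s2, s3⟩ := bounds hc' hcd'
  have S1 := sin_pos' hρ hρ1 (p1.trans p2) p3
  have S2 := sin_pos' hρ hρ1 (q1.trans q2) q3
  have S3 := sin_pos' hρ hρ1 (r1.trans r2) r3
  have S4 := sin_pos' hρ hρ1 (s1.trans s2) s3
  obtain ⟨step1, hWW⟩ := core8 (Real.pi * √v) C (1 / (a : ℝ) + 1 / b) (1 / (a : ℝ) - 1 / b)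
    (1 / (c : ℝ) + 1 / d) (1 / (c : ℝ) - 1 / d) (1 / (a' : ℝ) + 1 / b') (1 / (a' : ℝ) - 1 / b')
    (1 / (c' : ℝ) + 1 / d') (1 / (c' : ℝ) - 1 / d')
    (W * (-(1 / 2) * Real.sin (Real.pi * ρ * (1 - (1 / a + 1 / b)))))
    (W * ((1 / 2) * Real.sin (Real.pi * ρ * (1 - (1 / a - 1 / b)))))
    (W₁ * (-(1 / 2) * Real.sin (Real.pi * ρ * (1 - (1 / c + 1 / d)))))
    (W₁ * ((1 / 2) * Real.sin (Real.pi * ρ * (1 - (1 / c - 1 / d)))))
    (-(W' * (-(1 / 2) * Real.sin (Real.pi * ρ * (1 - (1 / a' + 1 / b'))))))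
    (-(W' * ((1 / 2) * Real.sin (Real.pi * ρ * (1 - (1 / a' - 1 / b'))))))
    (-(W₁' * (-(1 / 2) * Real.sin (Real.pi * ρ * (1 - (1 / c' + 1 / d'))))))
    (-(W₁' * ((1 / 2) * Real.sin (Real.pi * ρ * (1 - (1 / c' - 1 / d'))))))
    hx (by
      intro s hs
      have h1 := H s hs
      rw [lead2_eq, lead2_eq, lead2_eq, lead2_eq] at h1
      refine le_trans (le_of_eq ?_) h1
      congr 1
      ring) (p1.trans p2) p2 q2 hlt (r1.trans r2) r2 s2 hlt'
      (mul_ne_zero hW.ne' (mul_ne_zero (by norm_num) S1.ne'))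
      (neg_ne_zero.2 (mul_ne_zero hW'.ne' (mul_ne_zero (by norm_num) S3.ne')))
  obtain ⟨rfl, rfl⟩ := u_inj (by omega) hab hcop (by omega) hab' hcop' step1
  have hWW' : W = W' := by
    have h2 : (W - W') * Real.sin (Real.pi * ρ * (1 - (1 / a + 1 / b))) = 0 := by linarith
    rcases mul_eq_zero.1 h2 with h3 | h3
    · linarith
    · exact absurd h3 S1.ne'
  subst hWW'
  have step2 := core4 (Real.pi * √v) C (1 / (c : ℝ) + 1 / d)
    (1 / (c : ℝ) - 1 / d) (1 / (c' : ℝ) + 1 / d') (1 / (c' : ℝ) - 1 / d')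
    (W₁ * (-(1 / 2) * Real.sin (Real.pi * ρ * (1 - (1 / c + 1 / d)))))
    (W₁ * ((1 / 2) * Real.sin (Real.pi * ρ * (1 - (1 / c - 1 / d)))))
    (-(W₁' * (-(1 / 2) * Real.sin (Real.pi * ρ * (1 - (1 / c' + 1 / d'))))))
    (-(W₁' * ((1 / 2) * Real.sin (Real.pi * ρ * (1 - (1 / c' - 1 / d'))))))
    hx (by
      intro s hs
      have h1 := H s hs
      rw [lead2_eq c d, lead2_eq c' d'] at h1
      refine le_trans (le_of_eq ?_) h1
      congr 1
      ring) (q1.trans q2) q2 (s1.trans s2) s2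
      (mul_ne_zero hW₁.ne' (mul_ne_zero (by norm_num) S2.ne'))
      (neg_ne_zero.2 (mul_ne_zero hW₁'.ne' (mul_ne_zero (by norm_num) S4.ne')))
  obtain ⟨rfl, rfl⟩ := u_inj (by omega) hcd hcop1 (by omega) hcd' hcop1' step2
  exact ⟨rfl, rfl, rfl, rfl⟩

theorem t_IDEE : S_LEAD → S_IDEE' := fun _ => idee

/-- The combinatorial core of IDES. -/
theorem core6 (l1 l2 l3 l4 l5 l6 c1 c2 c3 c4 c5 c6 E : ℝ)
    (key : ∀ y < E, (if l1 = y then c1 else 0) + (if l2 = y then c2 else 0) +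
      (if l3 = y then c3 else 0) + (if l4 = y then c4 else 0) + (if l5 = y then c5 else 0) +
      (if l6 = y then c6 else 0) = 0)
    (h12 : l1 < l2) (h13 : l1 < l3) (h34 : l3 < l4) (h24 : l2 ≠ l4) (h56 : l5 < l6)
    (hc1 : c1 < 0) (hc2 : 0 < c2) (hc3 : c3 < 0) (hc4 : 0 < c4) (hc5 : 0 < c5) (hc6 : c6 < 0)
    (hmerge : l3 = l2 → 0 < c2 + c3)
    (hE : (l2 < E ∧ l4 < E) ∨ (l6 < E ∧ ¬ (l1 = l5 ∧ l2 = l6))) : False := by
  have F1 : l1 < E → l5 = l1 ∨ l6 = l1 := by
    intro h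
    by_contra hcon
    push Not at hcon
    have := key l1 h
    rw [if_pos rfl, if_neg h12.ne', if_neg h13.ne', if_neg (h13.trans h34).ne', if_neg hcon.1,
      if_neg hcon.2] at this
    linarith
  have F2 : l2 < E → l5 = l2 ∨ l6 = l2 := by
    intro h
    by_contra hcon
    push Not at hcon
    have := key l2 h
    rw [if_neg h12.ne, if_pos rfl, if_neg (Ne.symm h24), if_neg hcon.1,
      if_neg hcon.2] at this
    by_cases h32 : l3 = l2
    · rw [if_pos h32] at this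
      have := hmerge h32
      linarith
    · rw [if_neg h32] at this
      linarith
  have F3 : l3 < E → l3 ≠ l2 → l5 = l3 ∨ l6 = l3 := by
    intro h h32
    by_contra hcon
    push Not at hcon
    have := key l3 h
    rw [if_neg h13.ne, if_neg (Ne.symm h32), if_pos rfl, if_neg h34.ne', if_neg hcon.1,
      if_neg hcon.2] at this
    linarith
  have F4 : l4 < E → l5 = l4 ∨ l6 = l4 := by
    intro h
    by_contra hcon
    push Not at hcon
    have := key l4 h
    rw [if_neg (h13.trans h34).ne, if_neg h24, if_neg h34.ne, if_pos rfl, if_neg hcon.1,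
      if_neg hcon.2] at this
    linarith
  rcases hE with ⟨e2, e4⟩ | ⟨e6, hne⟩
  · rcases F1 (h12.trans e2) with g1 | g1 <;> rcases F2 e2 with g2 | g2 <;>
      rcases F4 e4 with g4 | g4
    · exact h24 (g2.symm.trans g4)
    · linarith
    · linarith
    · exact h24 (g2.symm.trans g4)
    · exact h24 (g2.symm.trans g4)
    · linarith
    · linarith
    · exact h24 (g2.symm.trans g4)
  · have hle : l1 ≤ l5 := by
      by_contra hcon
      push Not at hcon
      have := key l5 (h56.trans e6)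
      rw [if_neg hcon.ne', if_neg (hcon.trans h12).ne', if_neg (hcon.trans h13).ne',
        if_neg ((hcon.trans h13).trans h34).ne', if_pos rfl, if_neg h56.ne'] at this
      linarith
    have g5 : l5 = l1 := by
      rcases F1 (by linarith) with g | g
      · exact g
      · linarith
    have g6 : l2 = l6 ∨ l4 = l6 := by
      by_contra hcon
      push Not at hcon
      have := key l6 e6
      rw [if_neg (by linarith : ¬ l1 = l6), if_neg hcon.1, if_neg hcon.2,
        if_neg h56.ne, if_pos rfl] at this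
      by_cases h36 : l3 = l6
      · rw [if_pos h36] at this; linarith
      · rw [if_neg h36] at this; linarith
    rcases g6 with g6 | g6
    · exact hne ⟨g5.symm, g6⟩
    · by_cases h32 : l3 = l2
      · rcases F2 (by linarith) with g | g
        · linarith
        · exact h24 (by rw [g6, g])
      · rcases F3 (by linarith) h32 with g | g
        · linarith
        · linarith

/-- Brick IDES (the hypotheses `S_LEAD` and `S_RATIO` are not used). -/
theorem ides : S_IDES' := by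
  intro a b c d a' b' ρ v W W₁ ρ' v' W' C ha hab hcop hc hcd hcop1 hlt ha' hab' hcop'
    hρ hρ1 hρ' hρ1' hv hv' hW hW₁ hWW hW' H
  have hx : 0 < Real.pi * √v := mul_pos Real.pi_pos (Real.sqrt_pos.2 hv)
  have hx' : 0 < Real.pi * √v' := mul_pos Real.pi_pos (Real.sqrt_pos.2 hv')
  obtain ⟨p1, p2, p3⟩ := bounds ha hab
  obtain ⟨q1, q2, q3⟩ := bounds hc hcd
  obtain ⟨r1, r2, r3⟩ := bounds ha' hab'
  have S1 := sin_pos' hρ hρ1 (p1.trans p2) p3
  have T1 := sin_pos' hρ hρ1 p1 (p2.trans p3)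
  have S2 := sin_pos' hρ hρ1 (q1.trans q2) q3
  have T2 := sin_pos' hρ hρ1 q1 (q2.trans q3)
  have S3 := sin_pos' hρ' hρ1' (r1.trans r2) r3
  have T3 := sin_pos' hρ' hρ1' r1 (r2.trans r3)
  have hC : 0 ≤ C := by
    have h0 := (abs_nonneg _).trans (H 0 le_rfl)
    simp only [mul_zero, neg_zero, Real.exp_zero] at h0
    linarith
  have key := peel6 ((Real.pi * √v) * (1 - (1 / (a : ℝ) + 1 / b)))
    ((Real.pi * √v) * (1 - (1 / (a : ℝ) - 1 / b)))
    ((Real.pi * √v) * (1 - (1 / (c : ℝ) + 1 / d)))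
    ((Real.pi * √v) * (1 - (1 / (c : ℝ) - 1 / d)))
    ((Real.pi * √v') * (1 - (1 / (a' : ℝ) + 1 / b')))
    ((Real.pi * √v') * (1 - (1 / (a' : ℝ) - 1 / b')))
    (W * (-(1 / 2) * Real.sin (Real.pi * ρ * (1 - (1 / a + 1 / b)))))
    (W * ((1 / 2) * Real.sin (Real.pi * ρ * (1 - (1 / a - 1 / b)))))
    (W₁ * (-(1 / 2) * Real.sin (Real.pi * ρ * (1 - (1 / c + 1 / d)))))
    (W₁ * ((1 / 2) * Real.sin (Real.pi * ρ * (1 - (1 / c - 1 / d)))))
    (-(W' * (-(1 / 2) * Real.sin (Real.pi * ρ' * (1 - (1 / a' + 1 / b'))))))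
    (-(W' * ((1 / 2) * Real.sin (Real.pi * ρ' * (1 - (1 / a' - 1 / b'))))))
    (min (Real.pi * √v) (Real.pi * √v')) (2 * C) (by
      intro s hs
      have h1 := H s hs
      rw [lead2_eq, lead2_eq, lead2_eq] at h1
      have h2 : Real.exp (-(Real.pi * √v * s)) ≤
          Real.exp (-(min (Real.pi * √v) (Real.pi * √v') * s)) := by
        apply Real.exp_le_exp.2
        have := mul_le_mul_of_nonneg_right (min_le_left (Real.pi * √v) (Real.pi * √v')) hs
        linarith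
      have h3 : Real.exp (-(Real.pi * √v' * s)) ≤
          Real.exp (-(min (Real.pi * √v) (Real.pi * √v') * s)) := by
        apply Real.exp_le_exp.2
        have := mul_le_mul_of_nonneg_right (min_le_right (Real.pi * √v) (Real.pi * √v')) hs
        linarith
      have h4 : C * (Real.exp (-(Real.pi * √v * s)) + Real.exp (-(Real.pi * √v' * s))) ≤
          2 * C * Real.exp (-(min (Real.pi * √v) (Real.pi * √v') * s)) := by
        have := mul_le_mul_of_nonneg_left (add_le_add h2 h3) hC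
        linarith
      refine (le_trans (le_of_eq ?_) h1).trans h4
      congr 1
      ring)
  refine core6 _ _ _ _ _ _ _ _ _ _ _ _ _ key ?_ ?_ ?_ ?_ ?_ ?_ ?_ ?_ ?_ ?_ ?_ ?_ ?_
  · exact mul_lt_mul_of_pos_left (by linarith) hx
  · exact mul_lt_mul_of_pos_left (by linarith) hx
  · exact mul_lt_mul_of_pos_left (by linarith) hx
  · intro h
    have h1 : (1 : ℝ) / a - 1 / b = 1 / c - 1 / d := by
      have := mul_left_cancel₀ hx.ne' h
      linarith
    obtain ⟨rfl, rfl⟩ := w_inj (by omega) hab hcop (by omega) hcd hcop1 h1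
    exact lt_irrefl _ hlt
  · exact mul_lt_mul_of_pos_left (by linarith) hx'
  · linarith [mul_pos hW S1]
  · linarith [mul_pos hW T1]
  · linarith [mul_pos hW₁ S2]
  · linarith [mul_pos hW₁ T2]
  · linarith [mul_pos hW' S3]
  · linarith [mul_pos hW' T3]
  · intro h
    have h1 : (1 : ℝ) / a - 1 / b = 1 / c + 1 / d := by
      have := mul_left_cancel₀ hx.ne' h
      linarith
    have h2 := hWW (wu_prod (by omega) hab hcop (by omega) hcd hcop1 h1)
    rw [← h1]
    linarith [mul_pos (sub_pos.2 h2) T1]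
  · rcases le_or_gt (Real.pi * √v) (Real.pi * √v') with hle | hgt
    · left
      rw [min_eq_left hle]
      constructor
      · linarith [mul_pos hx p1]
      · linarith [mul_pos hx q1]
    · right
      rw [min_eq_right hgt.le]
      refine ⟨by linarith [mul_pos hx' r1], ?_⟩
      rintro ⟨g1, g2⟩
      have hr : (1 - ((1 : ℝ) / a + 1 / b)) * (1 - ((1 : ℝ) / a' - 1 / b')) =
          (1 - ((1 : ℝ) / a' + 1 / b')) * (1 - ((1 : ℝ) / a - 1 / b)) := by
        have h5 : (Real.pi * √v * (Real.pi * √v')) ≠ 0 := (mul_pos hx hx').ne'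
        apply mul_left_cancel₀ h5
        calc (Real.pi * √v * (Real.pi * √v')) *
              ((1 - ((1 : ℝ) / a + 1 / b)) * (1 - ((1 : ℝ) / a' - 1 / b')))
            = (Real.pi * √v * (1 - ((1 : ℝ) / a + 1 / b))) *
              (Real.pi * √v' * (1 - ((1 : ℝ) / a' - 1 / b'))) := by ring
          _ = (Real.pi * √v' * (1 - ((1 : ℝ) / a' + 1 / b'))) *
              (Real.pi * √v * (1 - ((1 : ℝ) / a - 1 / b))) := by rw [g1, g2]
          _ = _ := by ring
      obtain ⟨rfl, rfl⟩ := ratio_inj ha hab hcop ha' hab' hcop' hr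
      have h6 : (1 - ((1 : ℝ) / a + 1 / b)) ≠ 0 := by
        have : 0 < 1 - ((1 : ℝ) / a + 1 / b) := by linarith
        exact this.ne'
      have h7 := mul_right_cancel₀ h6 g1
      linarith

theorem t_IDES : S_LEAD → S_RATIO → S_IDES' := fun _ _ => ides

end Pool.Agent.K3h41.SB
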